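import Pool.Agent.H73.CBD.Stmts

/-! Row PRD of the board CBD. -/

set_option autoImplicit false

namespace Pool.CBD

theorem PRD_thm (hALG : ALGStmt) (hTAU : TAUStmt) (hTRI : TRIStmt) : PRDStmt := by
  obtain ⟨κ, hκ0, hκ8, hκ⟩ := hTRI
  have hf : ∀ z : V, z ≠ 0 → f z ≠ 0 := hALG.2.2.2.2.2.2.2.1
  have ht : ∀ z : V, z ≠ 0 → ‖tau z‖ ≤ 2 := fun z hz => (hTAU z hz).1
  have hn : ∀ z : V, z ≠ 0 → ‖nu z‖ ≤ 2 := fun z hz => (hTAU z hz).2.2.1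
  obtain ⟨κ', hκ'⟩ : ∃ κ' : ℝ, κ' = max κ 1 := ⟨_, rfl⟩
  have h1 : 1 ≤ κ' := hκ' ▸ le_max_right _ _
  have h2 : κ ≤ κ' := hκ' ▸ le_max_left _ _
  have h3 : κ' < 8 := by
    rw [hκ']
    exact max_lt hκ8 (by norm_num)
  obtain ⟨θ, hθ⟩ : ∃ θ : ℝ, θ = κ' ^ ((1 : ℝ) / 3) := ⟨_, rfl⟩
  have hθ1 : 1 ≤ θ := by
    rw [hθ]
    exact Real.one_le_rpow h1 (by norm_num)
  have hθ3 : θ ^ 3 = κ' := by
    rw [hθ, ← Real.rpow_natCast, ← Real.rpow_mul (by linarith)]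
    norm_num
  have hθ2 : θ < 2 := by
    by_contra hc
    rw [not_lt] at hc
    have h4 : (2 : ℝ) ^ 3 ≤ θ ^ 3 := pow_le_pow_left₀ (by norm_num) hc 3
    rw [hθ3] at h4
    norm_num at h4
    linarith
  refine ⟨θ, 8, by linarith, hθ2, by norm_num, ?_⟩
  have b0 : ∀ z : V, z ≠ 0 → ‖F 0 z‖ ≤ 2 := hn
  have b1 : ∀ z : V, z ≠ 0 → ‖F 1 z‖ ≤ 4 := by
    intro z hz
    have e : F 1 z = F 0 (f z) * tau z := rfl
    rw [e, norm_mul]
    nlinarith [b0 (f z) (hf z hz), ht z hz, norm_nonneg (F 0 (f z)), norm_nonneg (tau z)]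
  have b2 : ∀ z : V, z ≠ 0 → ‖F 2 z‖ ≤ 8 := by
    intro z hz
    have e : F 2 z = F 1 (f z) * tau z := rfl
    rw [e, norm_mul]
    nlinarith [b1 (f z) (hf z hz), ht z hz, norm_nonneg (F 1 (f z)), norm_nonneg (tau z)]
  have main : ∀ j : ℕ, (∀ z : V, z ≠ 0 → ‖F j z‖ ≤ 8 * θ ^ j) ∧
      (∀ z : V, z ≠ 0 → ‖F (j + 1) z‖ ≤ 8 * θ ^ (j + 1)) ∧
      (∀ z : V, z ≠ 0 → ‖F (j + 2) z‖ ≤ 8 * θ ^ (j + 2)) := by
    intro j
    induction j with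
    | zero =>
      have p1 : (1 : ℝ) ≤ θ ^ (0 + 1) := one_le_pow₀ hθ1
      have p2 : (1 : ℝ) ≤ θ ^ (0 + 2) := one_le_pow₀ hθ1
      refine ⟨fun z hz => ?_, fun z hz => ?_, fun z hz => ?_⟩
      · rw [pow_zero]
        linarith [b0 z hz]
      · have := b1 z hz
        show ‖F 1 z‖ ≤ _
        linarith
      · have := b2 z hz
        show ‖F 2 z‖ ≤ _
        linarith
    | succ j ih =>
      refine ⟨ih.2.1, ih.2.2, fun z hz => ?_⟩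
      have e : F (j + 1 + 2) z = F j (f (f (f z))) * tau (f (f z)) * tau (f z) * tau z := rfl
      have hz1 := hf z hz
      have hz2 := hf _ hz1
      have hz3 := hf _ hz2
      rw [e, norm_mul, norm_mul, norm_mul]
      have h5 := ih.1 _ hz3
      have h6 := hκ z hz
      have h7 : 0 ≤ ‖tau z‖ * ‖tau (f z)‖ * ‖tau (f (f z))‖ := by positivity
      calc ‖F j (f (f (f z)))‖ * ‖tau (f (f z))‖ * ‖tau (f z)‖ * ‖tau z‖ =
          ‖F j (f (f (f z)))‖ * (‖tau z‖ * ‖tau (f z)‖ * ‖tau (f (f z))‖) := by ring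
        _ ≤ (8 * θ ^ j) * κ' := mul_le_mul h5 (h6.trans h2) h7 (by positivity)
        _ = 8 * θ ^ (j + 1 + 2) := by
          rw [← hθ3]
          ring
  exact fun k z hz => (main k).1 z hz

theorem prd_thm (hALG : ALGStmt) (hTAU : TAUStmt) (hTRI : TRIStmt) : PRDStmt :=
  PRD_thm hALG hTAU hTRI

end Pool.CBD
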